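import Pool.Agent.Lib.MP_6bc78b_nt.GP.H43.Defs10b
import Pool.Agent.Lib.MP_6bc78b_nt.GP.H10.Av
import Pool.Agent.Lib.MP_6bc78b_nt.GP.H91.Box
import Pool.Agent.Lib.MP_6bc78b_nt.GP.H91.Etr

/-! Project GP10 (MP_6bc78b_nt), row AVB: eight averages (Fubini). -/

set_option autoImplicit false

open Complex Filter Topology MeasureTheory Set

namespace Pool.Agent.Lib.MP_6bc78b_nt.GP.H17

open Pool.Agent.Lib.MP_6bc78b_nt.GP Pool.Agent.Lib.MP_6bc78b_nt.GP.G10

lemma zp_re_ge {u δ : ℝ} (h0 : 0 < δ) (h1 : δ ≤ 1 / 2) : δ * Real.exp (-|u|) ≤ (zp u δ).re := by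
  have hpi := Real.pi_gt_three
  have hs2 : 2 / Real.pi * δ ≤ Real.sin δ := Real.mul_le_sin h0.le (by linarith)
  rw [H91.zp_re]
  have e1 : Real.exp (-|u|) ≤ Real.exp u := Real.exp_le_exp.2 (neg_abs_le u)
  have e2 : 2 * Real.pi * (Real.exp u * (2 / Real.pi * δ)) ≤
      2 * Real.pi * (Real.exp u * Real.sin δ) :=
    mul_le_mul_of_nonneg_left (mul_le_mul_of_nonneg_left hs2 (Real.exp_pos u).le)
      (by positivity)
  have e3 : 2 * Real.pi * (Real.exp u * (2 / Real.pi * δ)) = 4 * (Real.exp u * δ) := by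
    field_simp
    ring
  have e4 : δ * Real.exp (-|u|) ≤ Real.exp u * δ := by
    rw [mul_comm]
    exact mul_le_mul_of_nonneg_right e1 h0.le
  have e5 : 0 < Real.exp u * δ := mul_pos (Real.exp_pos u) h0
  linarith

lemma mul_re' (m : ℕ) (z : ℂ) : ((m : ℂ) * z).re = m * z.re := by simp

/-- `EE_B` on the curve: continuity and size. -/
theorem EM_curve (h2 : DX2Statement) (A B δ : ℝ) (S : Finset ℕ) (β : ℕ → ℝ) (h0 : 0 < δ)
    (h1 : δ ≤ 1 / 2) (hS : ∀ m ∈ S, 1 ≤ m) :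
    Continuous (fun u : ℝ => EM A B S β (zp u δ)) ∧
      ∃ C : ℝ, 0 ≤ C ∧ ∀ u : ℝ, ‖EM A B S β (zp u δ)‖ ≤ C * Real.exp (2 * |u|) := by
  obtain ⟨-, -, C, hC, h⟩ := h2 A B
  have hre : ∀ u : ℝ, 0 < (zp u δ).re := fun u =>
    lt_of_lt_of_le (mul_pos h0 (Real.exp_pos _)) (zp_re_ge h0 h1)
  have hrem : ∀ m ∈ S, ∀ u : ℝ, (zp u δ).re ≤ ((m : ℂ) * zp u δ).re := by
    intro m hm u
    rw [mul_re']
    have : (1 : ℝ) ≤ m := by exact_mod_cast hS m hm
    nlinarith [hre u]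
  constructor
  · unfold EM
    refine continuous_finsetSum S fun m hm => continuous_const.mul ?_
    exact (H91.EE_cont hC h).comp_continuous (continuous_const.mul (H91.zp_cont δ))
      (fun u => lt_of_lt_of_le (hre u) (hrem m hm u))
  · refine ⟨∑ m ∈ S, ‖(β m : ℂ)‖ * (5 * C / δ ^ 2), by positivity, fun u => ?_⟩
    unfold EM
    rw [Finset.sum_mul]
    refine (norm_sum_le _ _).trans (Finset.sum_le_sum fun m hm => ?_)
    rw [norm_mul, mul_assoc]
    refine mul_le_mul_of_nonneg_left ?_ (norm_nonneg _)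
    have h3 := H91.EE_norm hC h (lt_of_lt_of_le (hre u) (hrem m hm u))
    refine h3.trans ?_
    have hq : 0 < δ * Real.exp (-|u|) := mul_pos h0 (Real.exp_pos _)
    have h4 : 5 * C / ((m : ℂ) * zp u δ).re ^ 2 ≤ 5 * C / (δ * Real.exp (-|u|)) ^ 2 :=
      div_le_div_of_nonneg_left (by linarith) (pow_pos hq 2)
        (pow_le_pow_left₀ hq.le ((zp_re_ge h0 h1).trans (hrem m hm u)) 2)
    refine h4.trans (le_of_eq ?_)
    have e6 : Real.exp (2 * |u|) * Real.exp (-|u|) ^ 2 = 1 := by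
      rw [← Real.exp_nat_mul, ← Real.exp_add]
      simp
    have e7 : Real.exp (-|u|) ≠ 0 := (Real.exp_pos _).ne'
    have e8 : Real.exp (2 * |u|) = (Real.exp (-|u|) ^ 2)⁻¹ := eq_inv_of_mul_eq_one_left e6
    rw [e8, mul_pow]
    field_simp

/-- The density of the Gaussian window against `EE_B` is integrable. -/
theorem gd_int (h2 : DX2Statement) (A B δ H : ℝ) (S : Finset ℕ) (β : ℕ → ℝ) (h0 : 0 < δ)
    (h1 : δ ≤ 1 / 2) (hH : 0 < H) (hS : ∀ m ∈ S, 1 ≤ m) :
    Integrable (fun u : ℝ => ((gd H u * Real.exp (u / 2) : ℝ) : ℂ) * EM A B S β (zp u δ)) := by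
  obtain ⟨hc, C, hC, hb⟩ := EM_curve h2 A B δ S β h0 h1 hS
  have hg := (H32.integrable_gauss_abs (H ^ 2 / 2) (by positivity)).const_mul
    (H / Real.sqrt (2 * Real.pi) * C)
  have hgc : Continuous (fun u : ℝ => gd H u * Real.exp (u / 2)) := by
    unfold gd
    fun_prop
  refine hg.mono' ((Complex.continuous_ofReal.comp hgc).mul hc).aestronglyMeasurable
    (Eventually.of_forall fun u => ?_)
  have hg0 : 0 ≤ gd H u * Real.exp (u / 2) := by
    unfold gd
    positivity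
  rw [norm_mul, Complex.norm_real, Real.norm_eq_abs, abs_of_nonneg hg0]
  calc gd H u * Real.exp (u / 2) * ‖EM A B S β (zp u δ)‖
      ≤ gd H u * Real.exp (u / 2) * (C * Real.exp (2 * |u|)) :=
        mul_le_mul_of_nonneg_left (hb u) hg0
    _ = H / Real.sqrt (2 * Real.pi) * C *
          Real.exp (-(H ^ 2 * u ^ 2 / 2) + u / 2 + 2 * |u|) := by
        unfold gd
        rw [Real.exp_add, Real.exp_add]
        ring
    _ ≤ H / Real.sqrt (2 * Real.pi) * C * Real.exp (-(H ^ 2 / 2 * u ^ 2) + 3 * |u|) := by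
        refine mul_le_mul_of_nonneg_left (Real.exp_le_exp.2 ?_) (by positivity)
        have h6 := le_abs_self u
        have h7 := abs_nonneg u
        have h8 : H ^ 2 / 2 * u ^ 2 = H ^ 2 * u ^ 2 / 2 := by ring
        rw [h8]
        linarith

lemma Av_eq (w : ℝ) : Av w = H10A.Av w := by
  funext f t
  unfold Av H10A.Av
  have e := intervalIntegral.integral_comp_add_left (a := -w) (b := w) f t
  rw [e]
  push_cast
  rw [one_div]
  congr 2

/-- Row AVB. -/
theorem avb (h2 : DX2Statement) : AVBStatement := by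
  intro A B δ lam H t S β h0 h1 hl hH hS
  have hw : 0 < lam / 16 := by positivity
  rw [Av_eq]
  have hi := gd_int h2 A B δ H S β h0 h1 hH hS
  have key := congrFun (H10A.Av_fourier_iter hw 8 hi) t
  have e1 : (fun x : ℝ => SB A B δ (gd H) S β x) = fun x : ℝ =>
      ∫ u : ℝ, (((gd H u * Real.exp (u / 2) : ℝ) : ℂ) * EM A B S β (zp u δ)) *
        Complex.exp (u * x * I) := rfl
  rw [e1, key]
  unfold SB
  rw [← integral_const_mul]
  refine integral_congr_ae (Eventually.of_forall fun u => ?_)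
  show ((Real.sinc (lam / 16 * u) : ℝ) : ℂ) ^ 8 * (((gd H u * Real.exp (u / 2) : ℝ) : ℂ) *
    EM A B S β (zp u δ)) * Complex.exp (u * t * I) =
    ((H / Real.sqrt (2 * Real.pi) : ℝ) : ℂ) * (((wd lam H u * Real.exp (u / 2) : ℝ) : ℂ) *
      EM A B S β (zp u δ) * Complex.exp (u * t * I))
  unfold gd wd
  push_cast
  ring

end Pool.Agent.Lib.MP_6bc78b_nt.GP.H17
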