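import Pool.Agent.Lib.MP_6bc78b_nt.GP.H17.Gslk9
import Pool.Agent.Lib.MP_6bc78b_nt.GP.H52.DirAvg

/-! Project GP9, module LFTRK, part 1: average of a Dirichlet series times a slowly varying
function, for the window of `H62/Defs9.lean` (after `GP/H52/DirAvg.lean`). -/

set_option autoImplicit false

open Complex Filter Topology MeasureTheory Set

namespace Pool.Agent.Lib.MP_6bc78b_nt.GP.H17

open Pool.Agent.Lib.MP_6bc78b_nt.GP.G9 (GSLKStatement)
open Pool.Agent.Lib.MP_6bc78b_nt.GP.H52 (wt wt_nonneg wt_summable term_eq)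

/-- The window on the left line. -/
noncomputable def gk (t H y : ℝ) : ℂ := G9.GK H t (-(1 / 2) + y * I)

theorem gk_norm (t H y : ℝ) (hH : 1 ≤ H) : ‖gk t H y‖ ≤ 3 := by
  have h := norm_GK_left hH t y
  have h1 := g4_le_one ((y - t) / H)
  have h2 := g4_pos ((y - t) / H)
  unfold gk
  refine h.trans ?_
  nlinarith

theorem gk_cont (t H : ℝ) : Continuous (gk t H) := by
  unfold gk
  exact (G9.GK_cont H t).comp (by fun_prop)

/-- The error term of GSLK. -/
noncomputable def erk (a b t H M M' : ℝ) : ℝ :=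
  M' * H ^ 2 + M * H * (Real.exp (-((t - a) / H)) + Real.exp (-((b - t) / H)))

theorem erk_nonneg {a b t H M M' : ℝ} (hH : 0 ≤ H) (hM : 0 ≤ M) (hM' : 0 ≤ M') :
    0 ≤ erk a b t H M M' := by
  unfold erk
  positivity

/-- decay of the terms `n ≥ 2` -/
theorem decayk {n : ℕ} (hn : 2 ≤ n) {H : ℝ} (hH : 4 ≤ H) :
    Real.exp (Real.log n - H * Real.log n) ≤ Real.exp (1 - 2 / 5 * H) := by
  apply Real.exp_le_exp.2
  have h1 : (693 : ℝ) / 1000 ≤ Real.log 2 := by have := Real.log_two_gt_d9; linarith
  have h2 : Real.log 2 ≤ Real.log n := Real.log_le_log (by norm_num) (by exact_mod_cast hn)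
  nlinarith

/-- Average of `W(y) A(3/2 - iy)` for the new window. -/
theorem dir_avgk (hG : GSLKStatement) : ∃ C : ℝ, 0 < C ∧ ∀ (f : ℕ → ℂ) (κ : ℝ), 0 ≤ κ →
    (∀ n : ℕ, n ≠ 0 → ‖f n‖ ≤ κ * (1 + Real.log n) ^ 2) →
    ∀ (W : ℝ → ℂ) (a b t H M M' : ℝ), a < t → t < b → 4 ≤ H → 0 ≤ M → 0 ≤ M' →
    ContinuousOn W (Icc a b) → (∀ y ∈ Icc a b, ‖W y‖ ≤ M) →
    (∀ y ∈ Icc a b, ‖W y - W t‖ ≤ M' * |y - t|) →
    IntervalIntegrable (fun y => W y * LSeries f ((3 / 2 : ℝ) - y * I) * gk t H y) volume a b ∧
    ‖(∫ y in a..b, W y * LSeries f ((3 / 2 : ℝ) - y * I) * gk t H y) -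
      W t * f 1 * ((H * KK 0 : ℝ) : ℂ)‖ ≤
      κ * C * (erk a b t H M M' + M * (H * Real.exp (1 - 2 / 5 * H))) := by
  obtain ⟨CG, hCG, hG⟩ := hG
  set S := ∑' n, wt n with hS
  have hS0 : 0 ≤ S := tsum_nonneg wt_nonneg
  have hCK : 0 ≤ Real.exp 1 * G4 := mul_nonneg (Real.exp_pos _).le G4_nonneg
  refine ⟨S * (CG + Real.exp 1 * G4) + 1, by positivity, ?_⟩
  intro f κ hκ hf W a b t H M M' hat htb hH hM hM' hWc hWb hWl
  have hab : a ≤ b := (hat.trans htb).le
  have hH0 : 0 < H := by linarith
  have htm : t ∈ Icc a b := ⟨hat.le, htb.le⟩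
  -- the terms
  set F : ℕ → ℝ → ℂ := fun n y => W y * LSeries.term f ((3 / 2 : ℝ) - y * I) n * gk t H y with hF
  have hterm : ∀ (n : ℕ) (y : ℝ), ‖LSeries.term f ((3 / 2 : ℝ) - y * I) n‖ ≤ κ * wt n := by
    intro n y
    rcases eq_or_ne n 0 with rfl | hn
    · simp [wt]
    · rw [term_eq f n hn y, norm_mul, norm_mul, Complex.norm_real, Real.norm_of_nonneg (by positivity)]
      have h1 : ‖Complex.exp (y * Real.log n * I)‖ = 1 := by
        rw [← Complex.ofReal_mul]
        exact Complex.norm_exp_ofReal_mul_I (y * Real.log n)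
      rw [h1, mul_one]
      unfold wt
      rw [if_neg hn, ← mul_assoc]
      exact mul_le_mul_of_nonneg_right (hf n hn) (by positivity)
  have hFc : ∀ n, ContinuousOn (F n) (Icc a b) := by
    intro n
    refine (hWc.mul ?_).mul (gk_cont t H).continuousOn
    apply Continuous.continuousOn
    rcases eq_or_ne n 0 with rfl | hn
    · simp only [LSeries.term_zero]; exact continuous_const
    · have : (fun y : ℝ => LSeries.term f ((3 / 2 : ℝ) - y * I) n) = fun y : ℝ =>
          f n * (((n : ℝ) ^ (-(3 / 2) : ℝ) : ℝ) : ℂ) * Complex.exp (y * Real.log n * I) := by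
        funext y; exact term_eq f n hn y
      rw [this]
      fun_prop
  have hbd : ∀ n, ∀ y ∈ Icc a b, ‖F n y‖ ≤ M * (κ * wt n) * 3 := by
    intro n y hy
    simp only [hF, norm_mul]
    apply mul_le_mul _ (gk_norm t H y (by linarith)) (norm_nonneg _)
      (mul_nonneg hM (mul_nonneg hκ (wt_nonneg n)))
    exact mul_le_mul (hWb y hy) (hterm n y) (norm_nonneg _) hM
  have hbs : Summable fun n => M * (κ * wt n) * 3 :=
    ((wt_summable.mul_left κ).mul_left M).mul_right 3
  have hsumF : ∀ y : ℝ, Summable fun n => LSeries.term f ((3 / 2 : ℝ) - y * I) n := by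
    intro y
    exact Summable.of_norm_bounded (wt_summable.mul_left κ) (hterm · y)
  have hI : uIoc a b ⊆ Icc a b := by
    rw [uIoc_of_le hab]; exact Ioc_subset_Icc_self
  have hlim : ∀ y : ℝ, HasSum (fun n => F n y)
      (W y * LSeries f ((3 / 2 : ℝ) - y * I) * gk t H y) := by
    intro y
    exact ((hsumF y).hasSum.mul_left (W y)).mul_right (gk t H y)
  have hsum : HasSum (fun n => ∫ y in a..b, F n y)
      (∫ y in a..b, W y * LSeries f ((3 / 2 : ℝ) - y * I) * gk t H y) := by
    refine intervalIntegral.hasSum_integral_of_dominated_convergence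
      (fun n _ => M * (κ * wt n) * 3) ?_ ?_ ?_ ?_ ?_
    · intro n
      exact ((hFc n).mono hI).aestronglyMeasurable measurableSet_uIoc
    · intro n
      exact Eventually.of_forall fun y hy => hbd n y (hI hy)
    · exact Eventually.of_forall fun y _ => hbs
    · exact intervalIntegrable_const
    · exact Eventually.of_forall fun y _ => hlim y
  -- continuity of the sum
  have hcont : ContinuousOn (fun y => W y * LSeries f ((3 / 2 : ℝ) - y * I) * gk t H y)
      (Icc a b) := by
    have h1 := continuousOn_tsum hFc hbs hbd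
    refine h1.congr fun y _ => ?_
    exact (hlim y).tsum_eq.symm
  refine ⟨hcont.intervalIntegrable_of_Icc hab, ?_⟩
  -- main terms
  set mn : ℂ := W t * f 1 * ((H * KK 0 : ℝ) : ℂ) with hmn
  set E := erk a b t H M M' with hE
  have hE0 : 0 ≤ E := erk_nonneg hH0.le hM hM'
  set R := M * (H * Real.exp (1 - 2 / 5 * H)) with hR
  have hR0 : 0 ≤ R := by positivity
  have key : ∀ n : ℕ, ‖(∫ y in a..b, F n y) - (if n = 1 then mn else 0)‖ ≤
      κ * wt n * (CG * E + Real.exp 1 * G4 * R) := by
    intro n
    rcases eq_or_ne n 0 with rfl | hn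
    · simp [hF, wt]
    · have hn0 : (0 : ℝ) < n := by exact_mod_cast Nat.pos_of_ne_zero hn
      set c : ℂ := f n * (((n : ℝ) ^ (-(3 / 2) : ℝ) : ℝ) : ℂ) with hc
      have hcn : ‖c‖ ≤ κ * wt n := by
        rw [hc, norm_mul, Complex.norm_real, Real.norm_of_nonneg (by positivity)]
        unfold wt
        rw [if_neg hn, ← mul_assoc]
        exact mul_le_mul_of_nonneg_right (hf n hn) (by positivity)
      have h1 : (∫ y in a..b, F n y) = c * ∫ y in a..b, W y *
          Complex.exp (y * (Real.log n : ℝ) * I) * G9.GK H t (-(1 / 2) + y * I) := by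
        rw [← intervalIntegral.integral_const_mul]
        refine intervalIntegral.integral_congr fun y _ => ?_
        simp only [hF]
        rw [term_eq f n hn y, gk]
        ring
      have h2 := hG W a b t H M M' (Real.log n) hat htb (by linarith) hM hM' hWc hWb hWl
      have e9 : (2 * Real.pi * H * G9.kk (H * Real.log n) * Real.exp (Real.log n) : ℝ) =
          H * Real.exp (Real.log n) * KK (H * Real.log n) := by rw [← kk_eq]; ring
      rw [e9] at h2
      set J := ∫ y in a..b, W y * Complex.exp (y * (Real.log n : ℝ) * I) *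
          G9.GK H t (-(1 / 2) + y * I) with hJ
      set m : ℂ := W t * Complex.exp (t * (Real.log n : ℝ) * I) *
        ((H * Real.exp (Real.log n) * KK (H * Real.log n) : ℝ) : ℂ) with hm
      have h3 : ‖J - m‖ ≤ CG * E := h2
      have h4 : ‖c * J - c * m‖ ≤ κ * wt n * (CG * E) := by
        rw [← mul_sub, norm_mul]
        exact mul_le_mul hcn h3 (norm_nonneg _) (mul_nonneg hκ (wt_nonneg n))
      rw [h1]
      rcases eq_or_ne n 1 with rfl | hn1
      · rw [if_pos rfl]
        have h5 : c * m = mn := by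
          rw [hc, hm, hmn]
          simp
          ring
        rw [h5] at h4
        refine h4.trans ?_
        apply mul_le_mul_of_nonneg_left _ (mul_nonneg hκ (wt_nonneg 1))
        have : 0 ≤ Real.exp 1 * G4 * R := by positivity
        linarith
      · rw [if_neg hn1, sub_zero]
        have hn2 : 2 ≤ n := by omega
        have h6 : ‖m‖ ≤ Real.exp 1 * G4 * R := by
          rw [hm, norm_mul, norm_mul, Complex.norm_real, Real.norm_eq_abs]
          have e1 : ‖Complex.exp (t * (Real.log n : ℝ) * I)‖ = 1 := by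
            rw [← Complex.ofReal_mul]
            exact Complex.norm_exp_ofReal_mul_I (t * Real.log n)
          rw [e1, mul_one, abs_mul, abs_mul, abs_of_pos hH0, abs_of_pos (Real.exp_pos _)]
          have hv := decayk hn2 hH
          have e4 := hWb t htm
          have e5 : Real.exp (Real.log n) * |KK (H * Real.log n)| ≤
              Real.exp 1 * G4 * Real.exp (1 - 2 / 5 * H) := by
            have h8 := KK_decay (H * Real.log n)
            have h9 : |H * Real.log n| = H * Real.log n := by
              apply abs_of_nonneg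
              exact mul_nonneg hH0.le (Real.log_nonneg (by exact_mod_cast Nat.one_le_iff_ne_zero.2 hn))
            rw [h9] at h8
            calc Real.exp (Real.log n) * |KK (H * Real.log n)|
                ≤ Real.exp (Real.log n) * (Real.exp 1 * G4 * Real.exp (-(H * Real.log n))) :=
                  mul_le_mul_of_nonneg_left h8 (Real.exp_pos _).le
              _ = Real.exp 1 * G4 * Real.exp (Real.log n - H * Real.log n) := by
                  rw [sub_eq_add_neg, Real.exp_add]; ring
              _ ≤ _ := mul_le_mul_of_nonneg_left hv hCK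
          calc ‖W t‖ * (H * Real.exp (Real.log n) * |KK (H * Real.log n)|)
              = ‖W t‖ * H * (Real.exp (Real.log n) * |KK (H * Real.log n)|) := by ring
            _ ≤ M * H * (Real.exp 1 * G4 * Real.exp (1 - 2 / 5 * H)) := by
                apply mul_le_mul _ e5 (by positivity) (by positivity)
                exact mul_le_mul_of_nonneg_right e4 hH0.le
            _ = Real.exp 1 * G4 * R := by rw [hR]; ring
        have h7 : ‖c * m‖ ≤ κ * wt n * (Real.exp 1 * G4 * R) := by
          rw [norm_mul]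
          exact mul_le_mul hcn h6 (norm_nonneg _) (mul_nonneg hκ (wt_nonneg n))
        calc ‖c * J‖ = ‖(c * J - c * m) + c * m‖ := by rw [sub_add_cancel]
          _ ≤ ‖c * J - c * m‖ + ‖c * m‖ := norm_add_le _ _
          _ ≤ κ * wt n * (CG * E) + κ * wt n * (Real.exp 1 * G4 * R) := add_le_add h4 h7
          _ = κ * wt n * (CG * E + Real.exp 1 * G4 * R) := by ring
  have hsum2 : HasSum (fun n => (∫ y in a..b, F n y) - (if n = 1 then mn else 0))
      ((∫ y in a..b, W y * LSeries f ((3 / 2 : ℝ) - y * I) * gk t H y) - mn) :=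
    hsum.sub (hasSum_ite_eq 1 mn)
  have hsum3 : HasSum (fun n => κ * wt n * (CG * E + Real.exp 1 * G4 * R))
      (κ * S * (CG * E + Real.exp 1 * G4 * R)) :=
    (wt_summable.hasSum.mul_left κ).mul_right _
  have h8 := hsum2.norm_le_of_bounded hsum3 key
  refine h8.trans ?_
  have h10 : 0 ≤ κ * S := by positivity
  have h11 : 0 ≤ κ * S * (CG * R) := by positivity
  have h12 : 0 ≤ κ * S * (Real.exp 1 * G4 * E) := by positivity
  have h13 : 0 ≤ κ * (E + R) := by positivity
  nlinarith

end Pool.Agent.Lib.MP_6bc78b_nt.GP.H17
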