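import Pool.Agent.Lib.MP_6bc78b_nt.GP.H17.Ker

/-! Project GP9, module GSLK: average of a slowly varying function against an oscillation, for the
kernel `e^{1 - cos((s - 1/2 - it)/H)}` on the line `Re s = -1/2`. -/

set_option autoImplicit false

open Complex Filter Topology MeasureTheory Set

namespace Pool.Agent.Lib.MP_6bc78b_nt.GP.H17

/-- The kernel on the line `Re s = 1/2 + σ`. -/
lemma norm_GK_le {H : ℝ} (hH : 1 ≤ H) (t : ℝ) {σ : ℝ} (hσ : |σ| ≤ 1) (y : ℝ) :
    ‖GK H t ((1 / 2 + σ : ℝ) + y * I)‖ ≤ Real.exp 1 * (g4 ((y - t) / H) * g4 ((y - t) / H)) := by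
  have hH0 : 0 < H := by linarith
  rw [GK_eq H t σ y hH0.ne', ← g4_half]
  apply norm_phi_le
  rw [abs_neg, abs_div, abs_of_pos hH0, div_le_one hH0]
  linarith

/-- The left line in the form `-1/2 + iy`. -/
lemma left_pt (y : ℝ) : (-(1 / 2) + y * I : ℂ) = ((1 / 2 + (-1) : ℝ) : ℂ) + y * I := by
  push_cast
  ring

lemma norm_GK_left {H : ℝ} (hH : 1 ≤ H) (t y : ℝ) :
    ‖GK H t (-(1 / 2) + y * I)‖ ≤ 3 * (g4 ((y - t) / H) * g4 ((y - t) / H)) := by
  rw [left_pt]
  refine (norm_GK_le hH t (by simp) y).trans ?_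
  apply mul_le_mul_of_nonneg_right _ (by have := g4_pos ((y - t) / H); positivity)
  exact Real.exp_one_lt_three.le

lemma comp_affine (f : ℝ → ℝ) (t : ℝ) {H : ℝ} (hH : 0 < H) :
    ∫ y : ℝ, f ((y - t) / H) = H * ∫ x : ℝ, f x := by
  rw [integral_sub_right_eq_self (fun y => f (y / H)) t, Measure.integral_comp_div]
  rw [abs_of_pos hH, smul_eq_mul]

lemma comp_affine_int {f : ℝ → ℝ} (hf : Integrable f) (t : ℝ) {H : ℝ} (hH : 0 < H) :
    Integrable (fun y : ℝ => f ((y - t) / H)) :=
  (hf.comp_div hH.ne').comp_sub_right t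

/-- The full integral over the left line. -/
theorem full_left {H : ℝ} (hH : 1 ≤ H) (t v : ℝ) :
    ∫ y : ℝ, Complex.exp (y * v * I) * GK H t (-(1 / 2) + y * I) =
      Complex.exp (t * v * I) * ((H * Real.exp v * KK (H * v) : ℝ) : ℂ) := by
  have hH0 : 0 < H := by linarith
  have hHc : (H : ℂ) ≠ 0 := by exact_mod_cast hH0.ne'
  set F : ℝ → ℂ := fun x => phi (x + (1 / H : ℝ) * I) *
    Complex.exp ((H * v : ℝ) * (x + (1 / H : ℝ) * I) * I) with hF
  have e1 : ∀ y : ℝ, Complex.exp (y * v * I) * GK H t (-(1 / 2) + y * I) =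
      Complex.exp (t * v * I) * ((Real.exp v : ℝ) : ℂ) * F ((y - t) / H) := by
    intro y
    rw [left_pt, GK_eq H t (-1) y hH0.ne', hF]
    simp only
    have e2 : (-(-1 / H) : ℝ) = 1 / H := by ring
    have hI : I ^ 2 = -1 := Complex.I_sq
    have e5 : Complex.exp (y * v * I) = Complex.exp (t * v * I) * Complex.exp (v : ℂ) *
        Complex.exp ((H * v : ℝ) * (((y - t) / H : ℝ) + (1 / H : ℝ) * I) * I) := by
      rw [← Complex.exp_add, ← Complex.exp_add]
      congr 1
      push_cast
      field_simp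
      ring_nf
      rw [hI]
      ring
    rw [e2, e5, Complex.ofReal_exp]
    ring
  simp only [e1]
  rw [integral_const_mul]
  have e3 : ∫ y : ℝ, F ((y - t) / H) = (H : ℂ) * ∫ x : ℝ, F x := by
    rw [integral_sub_right_eq_self (fun y => F (y / H)) t, Measure.integral_comp_div,
      abs_of_pos hH0]
    rfl
  have e4 : ∫ x : ℝ, F x = (KK (H * v) : ℂ) := by
    rw [hF]
    have h := four_shift (H * v) (1 / H) (by
      rw [abs_of_pos (by positivity), div_le_one hH0]; exact hH)
    rw [← h]
  rw [e3, e4]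
  push_cast
  ring

/-- `∫ |x| g4(x)`. -/
noncomputable def G4' : ℝ := ∫ x : ℝ, |x| * g4 x

lemma xg4_int : Integrable (fun x : ℝ => |x| * g4 x) := by
  have h := (integrable_mul_exp_neg_mul_sq (b := 1 / 16) (by norm_num)).norm
  refine h.mono' (continuous_abs.mul g4_cont).aestronglyMeasurable
    (Eventually.of_forall fun x => ?_)
  rw [norm_mul, norm_mul, Real.norm_eq_abs, Real.norm_eq_abs, Real.norm_eq_abs, Real.norm_eq_abs,
    abs_abs, abs_of_pos (g4_pos x), abs_of_pos (Real.exp_pos _)]
  exact mul_le_mul_of_nonneg_left (g4_le x) (abs_nonneg x)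

lemma G4'_nonneg : 0 ≤ G4' := integral_nonneg fun x => by
  have := g4_pos x
  positivity

/-- GSLK. -/
theorem gslk : ∃ C : ℝ, 0 < C ∧ ∀ (W : ℝ → ℂ) (a b t H M M' v : ℝ), a < t → t < b →
    1 ≤ H → 0 ≤ M → 0 ≤ M' → ContinuousOn W (Icc a b) →
    (∀ y ∈ Icc a b, ‖W y‖ ≤ M) → (∀ y ∈ Icc a b, ‖W y - W t‖ ≤ M' * |y - t|) →
    ‖(∫ y in a..b, W y * Complex.exp (y * v * I) * GK H t (-(1 / 2) + y * I)) -
      W t * Complex.exp (t * v * I) * ((H * Real.exp v * KK (H * v) : ℝ) : ℂ)‖ ≤
      C * (M' * H ^ 2 + M * (H * g4 ((t - a) / H) + H * g4 ((b - t) / H))) := by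
  refine ⟨3 * (G4 + G4' + 1), by
    have := G4_nonneg
    have := G4'_nonneg
    positivity, ?_⟩
  intro W a b t H M M' v hat htb hH hM hM' hW hWM hWL
  have hH0 : 0 < H := by linarith
  have hab : a ≤ b := by linarith
  have hWt : ‖W t‖ ≤ M := hWM t ⟨hat.le, htb.le⟩
  have hG := G4_nonneg
  have hG' := G4'_nonneg
  set F : ℝ → ℂ := fun y => Complex.exp (y * v * I) * GK H t (-(1 / 2) + y * I) with hF
  set g : ℝ → ℝ := fun y => g4 ((y - t) / H) with hg
  have hg0 : ∀ y, 0 < g y := fun y => g4_pos _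
  have hgc : Continuous g := g4_cont.comp (by fun_prop)
  have hFc : Continuous F := by
    rw [hF]
    apply Continuous.mul (by fun_prop)
    exact (GK_diff H t).continuous.comp (by fun_prop)
  have hFn : ∀ y, ‖F y‖ ≤ 3 * (g y * g y) := by
    intro y
    rw [hF]
    simp only
    rw [norm_mul]
    have : ‖Complex.exp (y * v * I)‖ = 1 := by
      rw [show (y * v * I : ℂ) = ((y * v : ℝ) : ℂ) * I by push_cast; ring,
        Complex.norm_exp_ofReal_mul_I]
    rw [this, one_mul]
    exact norm_GK_left hH t y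
  have hFn1 : ∀ y, ‖F y‖ ≤ 3 * g y := by
    intro y
    refine (hFn y).trans ?_
    have : g y * g y ≤ g y := mul_le_of_le_one_right (hg0 y).le (g4_le_one _)
    linarith
  have hgi : Integrable g := comp_affine_int g4_int t hH0
  have hgI : ∫ y : ℝ, g y = H * G4 := comp_affine g4 t hH0
  have hFi : Integrable F := (hgi.const_mul 3).mono' hFc.aestronglyMeasurable
    (Eventually.of_forall hFn1)
  have hxi : Integrable (fun y : ℝ => |y - t| * g y) := by
    have h := (comp_affine_int xg4_int t hH0).const_mul H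
    refine h.congr (Eventually.of_forall fun y => ?_)
    simp only [hg]
    rw [abs_div, abs_of_pos hH0]
    field_simp
  have hxI : ∫ y : ℝ, |y - t| * g y = H ^ 2 * G4' := by
    have h := comp_affine (fun x => |x| * g4 x) t hH0
    have e : ∀ y : ℝ, |y - t| * g y = H * (|(y - t) / H| * g4 ((y - t) / H)) := by
      intro y
      rw [abs_div, abs_of_pos hH0]
      field_simp
      rfl
    simp only [e]
    rw [integral_const_mul, h]
    unfold G4'
    ring
  have e0 : ∀ y : ℝ, W y * Complex.exp (y * v * I) * GK H t (-(1 / 2) + y * I) = W y * F y := by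
    intro y
    rw [hF]
    ring
  simp only [e0]
  have hWI : ContinuousOn W (uIcc a b) := by rwa [uIcc_of_le hab]
  have i1 : IntervalIntegrable (fun y => (W y - W t) * F y) volume a b :=
    ((hWI.sub continuousOn_const).mul hFc.continuousOn).intervalIntegrable
  have i2 : IntervalIntegrable (fun y => W t * F y) volume a b :=
    ((hFc.continuousOn).const_smul (W t)).intervalIntegrable
  have s1 : ∫ y in a..b, W y * F y =
      (∫ y in a..b, (W y - W t) * F y) + W t * ∫ y in a..b, F y := by
    rw [← intervalIntegral.integral_const_mul, ← intervalIntegral.integral_add i1 i2]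
    apply intervalIntegral.integral_congr
    intro y _
    simp only
    ring
  have s2 : ∫ y in a..b, F y =
      (∫ y : ℝ, F y) - (∫ y in Iic a, F y) - ∫ y in Ioi b, F y := by
    have h1 := intervalIntegral.integral_Iic_add_Ioi (b := a) hFi.integrableOn hFi.integrableOn
    have h2 := intervalIntegral.integral_interval_add_Ioi (a := a) (b := b) hFi.integrableOn
      hFi.integrableOn
    rw [← h1, ← h2]
    ring
  have b1 : ‖∫ y in a..b, (W y - W t) * F y‖ ≤ 3 * (M' * H ^ 2) * G4' := by
    have hc : Continuous fun y => |y - t| * g y := by fun_prop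
    have h1 : ‖∫ y in a..b, (W y - W t) * F y‖ ≤ ∫ y in a..b, 3 * M' * (|y - t| * g y) := by
      apply intervalIntegral.norm_integral_le_of_norm_le hab
      · refine Eventually.of_forall fun y hy => ?_
        rw [norm_mul]
        have h3 := hWL y ⟨hy.1.le, hy.2⟩
        calc _ ≤ (M' * |y - t|) * (3 * g y) :=
              mul_le_mul h3 (hFn1 y) (norm_nonneg _) (by positivity)
          _ = 3 * M' * (|y - t| * g y) := by ring
      · exact (hc.const_mul _).intervalIntegrable _ _
    refine h1.trans ?_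
    rw [intervalIntegral.integral_const_mul]
    have h2 : ∫ y in a..b, |y - t| * g y ≤ H ^ 2 * G4' := by
      rw [intervalIntegral.integral_of_le hab, ← hxI]
      apply setIntegral_le_integral hxi
      exact Eventually.of_forall fun y => mul_nonneg (abs_nonneg _) (hg0 y).le
    have h5 : 0 ≤ 3 * M' := by positivity
    calc _ ≤ 3 * M' * (H ^ 2 * G4') := mul_le_mul_of_nonneg_left h2 h5
      _ = _ := by ring
  have b2 : ‖∫ y in Iic a, F y‖ ≤ 3 * (H * g4 ((t - a) / H)) * G4 := by
    have h1 : ‖∫ y in Iic a, F y‖ ≤ ∫ y in Iic a, 3 * g4 ((t - a) / H) * g y := by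
      apply norm_integral_le_of_norm_le
      · exact (hgi.const_mul _).integrableOn
      · rw [ae_restrict_iff' measurableSet_Iic]
        refine Eventually.of_forall fun y hy => ?_
        refine (hFn y).trans ?_
        have hy' : y ≤ a := hy
        have h2 : g y ≤ g4 ((t - a) / H) := by
          apply g4_mono
          rw [abs_div, abs_div, abs_of_pos hH0]
          apply div_le_div_of_nonneg_right _ hH0.le
          rw [abs_of_pos (by linarith), abs_of_neg (by linarith)]
          linarith
        have := hg0 y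
        nlinarith
    refine h1.trans ?_
    rw [integral_const_mul]
    have h3 : ∫ y in Iic a, g y ≤ H * G4 := by
      rw [← hgI]
      exact setIntegral_le_integral hgi (Eventually.of_forall fun y => (hg0 y).le)
    have h4 : 0 ≤ 3 * g4 ((t - a) / H) := by have := g4_pos ((t - a) / H); positivity
    calc _ ≤ 3 * g4 ((t - a) / H) * (H * G4) := mul_le_mul_of_nonneg_left h3 h4
      _ = _ := by ring
  have b3 : ‖∫ y in Ioi b, F y‖ ≤ 3 * (H * g4 ((b - t) / H)) * G4 := by
    have h1 : ‖∫ y in Ioi b, F y‖ ≤ ∫ y in Ioi b, 3 * g4 ((b - t) / H) * g y := by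
      apply norm_integral_le_of_norm_le
      · exact (hgi.const_mul _).integrableOn
      · rw [ae_restrict_iff' measurableSet_Ioi]
        refine Eventually.of_forall fun y hy => ?_
        refine (hFn y).trans ?_
        have hy' : b < y := hy
        have h2 : g y ≤ g4 ((b - t) / H) := by
          apply g4_mono
          rw [abs_div, abs_div, abs_of_pos hH0]
          apply div_le_div_of_nonneg_right _ hH0.le
          rw [abs_of_pos (by linarith), abs_of_pos (by linarith)]
          linarith
        have := hg0 y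
        nlinarith
    refine h1.trans ?_
    rw [integral_const_mul]
    have h3 : ∫ y in Ioi b, g y ≤ H * G4 := by
      rw [← hgI]
      exact setIntegral_le_integral hgi (Eventually.of_forall fun y => (hg0 y).le)
    have h4 : 0 ≤ 3 * g4 ((b - t) / H) := by have := g4_pos ((b - t) / H); positivity
    calc _ ≤ 3 * g4 ((b - t) / H) * (H * G4) := mul_le_mul_of_nonneg_left h3 h4
      _ = _ := by ring
  rw [s1, s2]
  have hfull : ∫ y : ℝ, F y = Complex.exp (t * v * I) *
      ((H * Real.exp v * KK (H * v) : ℝ) : ℂ) := full_left hH t v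
  rw [hfull]
  set TA := H * g4 ((t - a) / H) with hTA
  set TB := H * g4 ((b - t) / H) with hTB
  have pA : 0 ≤ TA := by have := g4_pos ((t - a) / H); positivity
  have pB : 0 ≤ TB := by have := g4_pos ((b - t) / H); positivity
  have e5 : (∫ y in a..b, (W y - W t) * F y) +
      W t * (Complex.exp (t * v * I) * ((H * Real.exp v * KK (H * v) : ℝ) : ℂ) -
        (∫ y in Iic a, F y) - ∫ y in Ioi b, F y) -
      W t * Complex.exp (t * v * I) * ((H * Real.exp v * KK (H * v) : ℝ) : ℂ) =
      (∫ y in a..b, (W y - W t) * F y) - W t * ((∫ y in Iic a, F y) +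
        ∫ y in Ioi b, F y) := by ring
  rw [e5]
  have b4 : ‖W t * ((∫ y in Iic a, F y) + ∫ y in Ioi b, F y)‖ ≤
      M * (3 * TA * G4 + 3 * TB * G4) := by
    rw [norm_mul]
    exact mul_le_mul hWt ((norm_add_le _ _).trans (add_le_add b2 b3)) (norm_nonneg _) hM
  refine (norm_sub_le _ _).trans ((add_le_add b1 b4).trans ?_)
  have q1 : 0 ≤ M' * H ^ 2 := by positivity
  have q2 : 0 ≤ M * TA := mul_nonneg hM pA
  have q3 : 0 ≤ M * TB := mul_nonneg hM pB
  nlinarith [mul_nonneg q1 hG, mul_nonneg q1 hG', mul_nonneg q2 hG, mul_nonneg q3 hG,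
    mul_nonneg q2 hG', mul_nonneg q3 hG']

end Pool.Agent.Lib.MP_6bc78b_nt.GP.H17
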