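import Pool.Agent.Lib.MP_6bc78b_nt.GP.H17.Gslk
import Pool.Agent.Lib.MP_6bc78b_nt.GP.H62.Defs9

/-! Project GP9, module GSLK: the statement of `H62/Defs9.lean`. -/

set_option autoImplicit false

open Complex Filter Topology MeasureTheory Set

namespace Pool.Agent.Lib.MP_6bc78b_nt.GP.H17

open Pool.Agent.Lib.MP_6bc78b_nt.GP.G9

lemma kk_eq (v : ℝ) : 2 * Real.pi * kk v = KK v := by
  unfold kk KK
  have := Real.pi_pos
  field_simp

lemma g4_exp (x : ℝ) : g4 x ≤ 8 * Real.exp (-x) := by
  have h1 : g4 x ≤ Real.exp (2 - x) := by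
    unfold g4
    apply Real.exp_le_exp.2
    have h2 : Real.exp x / 2 ≤ Real.cosh x := by
      rw [Real.cosh_eq]
      have := Real.exp_pos (-x)
      linarith
    have h3 : 8 * (x - 2) ≤ Real.exp x := by
      rcases le_or_gt x 2 with h | h
      · have := Real.exp_pos x
        linarith
      · have h4 := Real.add_one_le_exp (x - 3)
        have h5 : Real.exp x = Real.exp 3 * Real.exp (x - 3) := by
          rw [← Real.exp_add]; congr 1; ring
        have h6 : (8 : ℝ) ≤ Real.exp 3 := by
          have h7 : Real.exp 3 = Real.exp 1 ^ 3 := by rw [← Real.exp_nat_mul]; norm_num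
          have h8 : (2 : ℝ) ≤ Real.exp 1 := by have := Real.exp_one_gt_d9; linarith
          rw [h7]
          calc (8 : ℝ) = 2 ^ 3 := by norm_num
            _ ≤ _ := pow_le_pow_left₀ (by norm_num) h8 3
        rw [h5]
        have h9 : x - 2 ≤ Real.exp (x - 3) := by linarith
        have h10 : 0 ≤ x - 2 := by linarith
        calc 8 * (x - 2) ≤ Real.exp 3 * (x - 2) := mul_le_mul_of_nonneg_right h6 h10
          _ ≤ _ := mul_le_mul_of_nonneg_left h9 (Real.exp_pos _).le
    linarith
  refine h1.trans ?_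
  rw [show (2 - x : ℝ) = 2 + -x by ring, Real.exp_add]
  apply mul_le_mul_of_nonneg_right _ (Real.exp_pos _).le
  have h7 : Real.exp 2 = Real.exp 1 ^ 2 := by rw [← Real.exp_nat_mul]; norm_num
  have h8 := Real.exp_one_lt_d9
  have h9 := Real.exp_pos 1
  rw [h7]
  nlinarith

/-- GSLK. -/
theorem gslk9 : GSLKStatement := by
  obtain ⟨C, hC, h⟩ := gslk
  refine ⟨8 * C, by positivity, ?_⟩
  intro W a b t H M M' v hat htb hH hM hM' hW hWM hWL
  have h1 := h W a b t H M M' v hat htb (by linarith) hM hM' hW hWM hWL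
  have hH0 : 0 < H := by linarith
  have e : (2 * Real.pi * H * kk (H * v) * Real.exp v : ℝ) = H * Real.exp v * KK (H * v) := by
    rw [← kk_eq]; ring
  rw [e]
  refine h1.trans ?_
  have g1 := g4_exp ((t - a) / H)
  have g2 := g4_exp ((b - t) / H)
  have e1 := Real.exp_pos (-((t - a) / H))
  have e2 := Real.exp_pos (-((b - t) / H))
  have h2 : H * g4 ((t - a) / H) + H * g4 ((b - t) / H) ≤
      8 * (H * (Real.exp (-((t - a) / H)) + Real.exp (-((b - t) / H)))) := by nlinarith
  have h3 : M * (H * g4 ((t - a) / H) + H * g4 ((b - t) / H)) ≤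
      M * (8 * (H * (Real.exp (-((t - a) / H)) + Real.exp (-((b - t) / H))))) :=
    mul_le_mul_of_nonneg_left h2 hM
  have h4 : 0 ≤ M' * H ^ 2 := by positivity
  calc C * (M' * H ^ 2 + M * (H * g4 ((t - a) / H) + H * g4 ((b - t) / H)))
      ≤ C * (8 * (M' * H ^ 2) +
        M * (8 * (H * (Real.exp (-((t - a) / H)) + Real.exp (-((b - t) / H)))))) := by
        apply mul_le_mul_of_nonneg_left _ hC.le
        linarith
    _ = _ := by ring

end Pool.Agent.Lib.MP_6bc78b_nt.GP.H17
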