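import Mathlib

/-! Project GP9, module KER: the entire kernel `φ(z) = e^{1 - cosh z}` and its Fourier transform. -/

set_option autoImplicit false

open Complex Filter Topology MeasureTheory Set

namespace Pool.Agent.Lib.MP_6bc78b_nt.GP.H17

/-- The entire function `e^{1 - cosh z}`. -/
noncomputable def phi (z : ℂ) : ℂ := Complex.exp (1 - Complex.cosh z)

/-- The majorant `e^{-(cosh x)/4}`. -/
noncomputable def g4 (x : ℝ) : ℝ := Real.exp (-(Real.cosh x / 4))

lemma phi_diff : Differentiable ℂ phi := by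
  unfold phi
  exact ((differentiable_const _).sub Complex.differentiable_cosh).cexp

lemma phi_cont : Continuous phi := phi_diff.continuous

lemma cosh_add (x η : ℝ) : Complex.cosh (x + η * I) =
    ((Real.cosh x * Real.cos η : ℝ) : ℂ) + ((Real.sinh x * Real.sin η : ℝ) : ℂ) * I := by
  rw [Complex.cosh_add, Complex.cosh_mul_I, Complex.sinh_mul_I]
  push_cast
  ring

lemma norm_phi (x η : ℝ) : ‖phi (x + η * I)‖ = Real.exp (1 - Real.cosh x * Real.cos η) := by
  unfold phi
  rw [Complex.norm_exp, cosh_add]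
  congr 1
  rw [Complex.sub_re, Complex.add_re, Complex.re_ofReal_mul, Complex.ofReal_re, Complex.I_re]
  simp

lemma half_le_cos {η : ℝ} (h : |η| ≤ 1) : 1 / 2 ≤ Real.cos η := by
  rw [← Real.cos_abs, ← Real.cos_pi_div_three]
  apply Real.cos_le_cos_of_nonneg_of_le_pi (abs_nonneg η)
  · linarith [Real.pi_pos]
  · have := Real.pi_gt_d2
    linarith

lemma one_le_cosh' (x : ℝ) : 1 ≤ Real.cosh x := Real.one_le_cosh x

lemma norm_phi_le {x η : ℝ} (h : |η| ≤ 1) :
    ‖phi (x + η * I)‖ ≤ Real.exp 1 * Real.exp (-(Real.cosh x / 2)) := by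
  rw [norm_phi, ← Real.exp_add]
  apply Real.exp_le_exp.2
  have h1 := half_le_cos h
  have h2 := one_le_cosh' x
  nlinarith

lemma cosh_ge (x : ℝ) : 1 + x ^ 2 / 4 ≤ Real.cosh x := by
  rw [← Real.cosh_abs, Real.cosh_eq]
  have h1 := Real.quadratic_le_exp_of_nonneg (abs_nonneg x)
  have h2 := Real.add_one_le_exp (-|x|)
  rw [sq_abs] at h1
  linarith

lemma g4_pos (x : ℝ) : 0 < g4 x := Real.exp_pos _

lemma g4_cont : Continuous g4 := by
  unfold g4
  exact Real.continuous_exp.comp (Real.continuous_cosh.div_const 4).neg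

lemma g4_even (x : ℝ) : g4 (-x) = g4 x := by
  unfold g4
  rw [Real.cosh_neg]

lemma g4_le (x : ℝ) : g4 x ≤ Real.exp (-(1 / 16) * x ^ 2) := by
  unfold g4
  apply Real.exp_le_exp.2
  have := cosh_ge x
  linarith

lemma g4_le_one (x : ℝ) : g4 x ≤ 1 := by
  unfold g4
  rw [Real.exp_le_one_iff]
  have := one_le_cosh' x
  linarith

lemma g4_int : Integrable g4 := by
  have h := integrable_exp_neg_mul_sq (b := 1 / 16) (by norm_num)
  refine h.mono' g4_cont.aestronglyMeasurable (Eventually.of_forall fun x => ?_)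
  rw [Real.norm_of_nonneg (g4_pos x).le]
  exact g4_le x

lemma g4_half (x : ℝ) : Real.exp (-(Real.cosh x / 2)) = g4 x * g4 x := by
  unfold g4
  rw [← Real.exp_add]
  congr 1
  ring

lemma g4_mono {x β : ℝ} (h : |β| ≤ |x|) : g4 x ≤ g4 β := by
  unfold g4
  apply Real.exp_le_exp.2
  have := Real.cosh_le_cosh.2 h
  linarith

lemma g4_tendsto_top : Tendsto g4 atTop (𝓝 0) := by
  have h1 : Tendsto (fun x : ℝ => Real.exp (-(1 / 16) * x ^ 2)) atTop (𝓝 0) := by
    apply Real.tendsto_exp_atBot.comp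
    apply Tendsto.const_mul_atTop_of_neg (by norm_num)
    exact tendsto_pow_atTop (by norm_num)
  exact squeeze_zero (fun x => (g4_pos x).le) g4_le h1

lemma g4_tendsto_bot : Tendsto g4 atBot (𝓝 0) := by
  have := g4_tendsto_top.comp tendsto_neg_atBot_atTop
  refine this.congr fun x => ?_
  exact g4_even x

/-- Moving the line of integration. -/
theorem shift {f : ℂ → ℂ} (hf : Differentiable ℂ f) {g : ℝ → ℝ} (hg : Integrable g)
    (ht : Tendsto g atTop (𝓝 0)) (hb : Tendsto g atBot (𝓝 0)) {η : ℝ}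
    (hfg : ∀ x y : ℝ, |y| ≤ |η| → ‖f (x + y * I)‖ ≤ g x) :
    ∫ x : ℝ, f x = ∫ x : ℝ, f (x + η * I) := by
  have hi0 : Integrable (fun x : ℝ => f x) := by
    refine hg.mono' (hf.continuous.comp Complex.continuous_ofReal).aestronglyMeasurable
      (Eventually.of_forall fun x => ?_)
    have := hfg x 0 (by simp)
    simpa using this
  have hi1 : Integrable (fun x : ℝ => f (x + η * I)) := by
    refine hg.mono' (hf.continuous.comp (by fun_prop)).aestronglyMeasurable
      (Eventually.of_forall fun x => hfg x η le_rfl)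
  have t0 : Tendsto (fun R : ℝ => ∫ x in (-R)..R, f x) atTop (𝓝 (∫ x : ℝ, f x)) :=
    intervalIntegral_tendsto_integral hi0 tendsto_neg_atTop_atBot tendsto_id
  have t1 : Tendsto (fun R : ℝ => ∫ x in (-R)..R, f (x + η * I)) atTop
      (𝓝 (∫ x : ℝ, f (x + η * I))) :=
    intervalIntegral_tendsto_integral hi1 tendsto_neg_atTop_atBot tendsto_id
  have hside : ∀ R : ℝ, ‖∫ y in (0 : ℝ)..η, f (R + y * I)‖ ≤ g R * |η| := by
    intro R
    have := intervalIntegral.norm_integral_le_of_norm_le_const (a := (0 : ℝ)) (b := η)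
      (C := g R) (f := fun y : ℝ => f (R + y * I)) (by
        intro y hy
        apply hfg
        have := abs_sub_left_of_mem_uIcc (uIoc_subset_uIcc hy)
        simpa using this)
    simpa using this
  have t2 : Tendsto (fun R : ℝ => ∫ y in (0 : ℝ)..η, f (R + y * I)) atTop (𝓝 0) := by
    apply squeeze_zero_norm hside
    simpa using ht.mul_const |η|
  have t3 : Tendsto (fun R : ℝ => ∫ y in (0 : ℝ)..η, f ((-R : ℝ) + y * I)) atTop (𝓝 0) := by
    apply squeeze_zero_norm (fun R => hside (-R))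
    simpa using (hb.comp tendsto_neg_atTop_atBot).mul_const |η|
  have hrect : ∀ R : ℝ, (∫ x in (-R)..R, f x) - (∫ x in (-R)..R, f (x + η * I)) +
      I * (∫ y in (0 : ℝ)..η, f (R + y * I)) -
      I * (∫ y in (0 : ℝ)..η, f ((-R : ℝ) + y * I)) = 0 := by
    intro R
    have h := Complex.integral_boundary_rect_eq_zero_of_differentiableOn f (-R : ℂ) (R + η * I)
      hf.differentiableOn
    simp only [Complex.neg_re, Complex.ofReal_re, Complex.neg_im, Complex.ofReal_im, neg_zero,
      Complex.add_re, Complex.mul_re, Complex.I_re, mul_zero, Complex.I_im, mul_one, sub_self,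
      add_zero, Complex.add_im, Complex.mul_im, zero_add, smul_eq_mul, Complex.ofReal_zero,
      zero_mul] at h
    rw [← h]
  have hlim : Tendsto (fun R : ℝ => (∫ x in (-R)..R, f x) - (∫ x in (-R)..R, f (x + η * I)) +
      I * (∫ y in (0 : ℝ)..η, f (R + y * I)) -
      I * (∫ y in (0 : ℝ)..η, f ((-R : ℝ) + y * I))) atTop
      (𝓝 ((∫ x : ℝ, f x) - (∫ x : ℝ, f (x + η * I)) + I * 0 - I * 0)) :=
    ((t0.sub t1).add (t2.const_mul I)).sub (t3.const_mul I)
  simp only [hrect] at hlim
  have := tendsto_nhds_unique hlim tendsto_const_nhds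
  have h0 : (∫ x : ℝ, f x) - (∫ x : ℝ, f (x + η * I)) = 0 := by
    rw [← this]; ring
  exact sub_eq_zero.1 h0

/-- The Fourier transform of `e^{1 - cosh x}`. -/
noncomputable def KK (ξ : ℝ) : ℝ := ∫ x : ℝ, Real.exp (1 - Real.cosh x) * Real.cos (ξ * x)

lemma phi_real (x : ℝ) : phi x = ((Real.exp (1 - Real.cosh x) : ℝ) : ℂ) := by
  unfold phi
  push_cast
  rfl

lemma exp_le_g4 (x : ℝ) : Real.exp (1 - Real.cosh x) ≤ Real.exp 1 * g4 x := by
  unfold g4
  rw [← Real.exp_add]
  apply Real.exp_le_exp.2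
  have := one_le_cosh' x
  linarith

lemma exp_cont : Continuous (fun x : ℝ => Real.exp (1 - Real.cosh x)) :=
  Real.continuous_exp.comp (continuous_const.sub Real.continuous_cosh)

lemma exp_int : Integrable (fun x : ℝ => Real.exp (1 - Real.cosh x)) := by
  refine (g4_int.const_mul (Real.exp 1)).mono' exp_cont.aestronglyMeasurable
    (Eventually.of_forall fun x => ?_)
  rw [Real.norm_of_nonneg (Real.exp_pos _).le]
  exact exp_le_g4 x

lemma exp_trig_int (u : ℝ → ℝ) (hu : Continuous u) (hu1 : ∀ x, |u x| ≤ 1) :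
    Integrable (fun x : ℝ => Real.exp (1 - Real.cosh x) * u x) := by
  refine exp_int.mono' (exp_cont.mul hu).aestronglyMeasurable (Eventually.of_forall fun x => ?_)
  rw [norm_mul, Real.norm_eq_abs, Real.norm_eq_abs, abs_of_pos (Real.exp_pos _)]
  exact mul_le_of_le_one_right (Real.exp_pos _).le (hu1 x)

/-- The Fourier transform as a complex integral. -/
theorem four (ξ : ℝ) : ∫ x : ℝ, phi x * Complex.exp (ξ * x * I) = (KK ξ : ℂ) := by
  have h1 : ∀ x : ℝ, phi x * Complex.exp (ξ * x * I) =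
      ((Real.exp (1 - Real.cosh x) * Real.cos (ξ * x) : ℝ) : ℂ) +
        ((Real.exp (1 - Real.cosh x) * Real.sin (ξ * x) : ℝ) : ℂ) * I := by
    intro x
    rw [phi_real, show (ξ * x * I : ℂ) = ((ξ * x : ℝ) : ℂ) * I by push_cast; ring,
      Complex.exp_mul_I, ← Complex.ofReal_cos, ← Complex.ofReal_sin]
    push_cast
    ring
  have hc : Integrable (fun x : ℝ => Real.exp (1 - Real.cosh x) * Real.cos (ξ * x)) :=
    exp_trig_int _ (by fun_prop) (fun x => Real.abs_cos_le_one _)
  have hs : Integrable (fun x : ℝ => Real.exp (1 - Real.cosh x) * Real.sin (ξ * x)) :=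
    exp_trig_int _ (by fun_prop) (fun x => Real.abs_sin_le_one _)
  have hodd : ∫ x : ℝ, Real.exp (1 - Real.cosh x) * Real.sin (ξ * x) = 0 := by
    have h := integral_neg_eq_self (fun x : ℝ => Real.exp (1 - Real.cosh x) * Real.sin (ξ * x))
      volume
    simp only [Real.cosh_neg, mul_neg, Real.sin_neg] at h
    rw [integral_neg] at h
    linarith
  simp only [h1]
  have hc' : Integrable (fun x : ℝ =>
      ((Real.exp (1 - Real.cosh x) * Real.cos (ξ * x) : ℝ) : ℂ)) := hc.ofReal
  have hs' : Integrable (fun x : ℝ =>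
      ((Real.exp (1 - Real.cosh x) * Real.sin (ξ * x) : ℝ) : ℂ) * I) := hs.ofReal.mul_const I
  rw [integral_add hc' hs', integral_mul_const, integral_complex_ofReal,
    integral_complex_ofReal, hodd]
  unfold KK
  simp

/-- The value at `0` is positive. -/
theorem KK_zero : Real.exp (-1) ≤ KK 0 := by
  unfold KK
  simp only [zero_mul, Real.cos_zero, mul_one]
  -- on [-1, 1] the function is at least e^{1 - cosh 1} ≥ e^{-1}
  have h1 : ∫ x in Icc (-(1 / 2) : ℝ) (1 / 2), Real.exp (-1) ≤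
      ∫ x in Icc (-(1 / 2) : ℝ) (1 / 2), Real.exp (1 - Real.cosh x) := by
    apply setIntegral_mono_on (by simp) exp_int.integrableOn measurableSet_Icc
    intro x hx
    apply Real.exp_le_exp.2
    have h2 : Real.cosh x ≤ Real.cosh 1 := by
      apply Real.cosh_le_cosh.2
      rw [abs_one, abs_le]
      constructor <;> linarith [hx.1, hx.2]
    have h3 : Real.cosh 1 ≤ 2 := by
      rw [Real.cosh_eq]
      have h4 := Real.exp_one_lt_d9
      have h5 : Real.exp (-1) ≤ 1 := Real.exp_le_one_iff.2 (by norm_num)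
      linarith
    linarith
  have h2 : ∫ x in Icc (-(1 / 2) : ℝ) (1 / 2), Real.exp (-1) = Real.exp (-1) := by
    rw [setIntegral_const]
    simp
    norm_num
  rw [← h2]
  exact h1.trans (setIntegral_le_integral exp_int (Eventually.of_forall fun x =>
    (Real.exp_pos _).le))

theorem KK_abs_le (ξ : ℝ) : |KK ξ| ≤ KK 0 := by
  unfold KK
  simp only [zero_mul, Real.cos_zero, mul_one]
  rw [← Real.norm_eq_abs]
  refine (norm_integral_le_integral_norm _).trans ?_
  apply integral_mono_of_nonneg (Eventually.of_forall fun x => norm_nonneg _) exp_int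
  refine Eventually.of_forall fun x => ?_
  simp only
  rw [norm_mul, Real.norm_eq_abs, Real.norm_eq_abs, abs_of_pos (Real.exp_pos _)]
  exact mul_le_of_le_one_right (Real.exp_pos _).le (Real.abs_cos_le_one _)

/-- The integrand of the transform. -/
lemma fx_diff (ξ : ℝ) : Differentiable ℂ (fun z : ℂ => phi z * Complex.exp (ξ * z * I)) := by
  apply phi_diff.mul
  fun_prop

lemma fx_bound (ξ : ℝ) (x y : ℝ) (hy : |y| ≤ 1) :
    ‖phi (x + y * I) * Complex.exp (ξ * (x + y * I) * I)‖ ≤
      Real.exp 1 * Real.exp (-(ξ * y)) * (g4 x * g4 x) := by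
  rw [norm_mul, Complex.norm_exp]
  have e : (ξ * (x + y * I) * I : ℂ).re = -(ξ * y) := by
    have : (ξ * (x + y * I) * I : ℂ) = ((-(ξ * y) : ℝ) : ℂ) + ((ξ * x : ℝ) : ℂ) * I := by
      push_cast
      have hI : I ^ 2 = -1 := Complex.I_sq
      linear_combination ((ξ : ℂ) * y) * hI
    rw [this, Complex.add_re, Complex.re_ofReal_mul, Complex.ofReal_re, Complex.I_re]
    ring
  rw [e]
  have h1 := norm_phi_le (x := x) hy
  rw [g4_half] at h1
  calc _ ≤ (Real.exp 1 * (g4 x * g4 x)) * Real.exp (-(ξ * y)) :=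
        mul_le_mul_of_nonneg_right h1 (Real.exp_pos _).le
    _ = _ := by ring

/-- The transform on a shifted line. -/
theorem four_shift (ξ η : ℝ) (hη : |η| ≤ 1) :
    ∫ x : ℝ, phi (x + η * I) * Complex.exp (ξ * (x + η * I) * I) = (KK ξ : ℂ) := by
  rw [← four ξ]
  symm
  have hg : Integrable (fun x => Real.exp 1 * Real.exp |ξ| * g4 x) := g4_int.const_mul _
  apply shift (fx_diff ξ) hg
  · simpa using g4_tendsto_top.const_mul (Real.exp 1 * Real.exp |ξ|)
  · simpa using g4_tendsto_bot.const_mul (Real.exp 1 * Real.exp |ξ|)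
  · intro x y hy
    have hy1 : |y| ≤ 1 := hy.trans hη
    refine (fx_bound ξ x y hy1).trans ?_
    have h1 : Real.exp (-(ξ * y)) ≤ Real.exp |ξ| := by
      apply Real.exp_le_exp.2
      have h2 : |ξ * y| ≤ |ξ| := by
        rw [abs_mul]
        exact mul_le_of_le_one_right (abs_nonneg _) hy1
      linarith [neg_abs_le (ξ * y)]
    have h3 : g4 x * g4 x ≤ g4 x := mul_le_of_le_one_right (g4_pos x).le (g4_le_one x)
    have h4 := g4_pos x
    calc Real.exp 1 * Real.exp (-(ξ * y)) * (g4 x * g4 x)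
        ≤ Real.exp 1 * Real.exp |ξ| * (g4 x * g4 x) := by gcongr
      _ ≤ Real.exp 1 * Real.exp |ξ| * g4 x :=
          mul_le_mul_of_nonneg_left h3 (by positivity)

/-- The integral of the majorant. -/
noncomputable def G4 : ℝ := ∫ x : ℝ, g4 x

lemma G4_nonneg : 0 ≤ G4 := integral_nonneg fun x => (g4_pos x).le

/-- Exponential decay of the transform. -/
theorem KK_decay (ξ : ℝ) : |KK ξ| ≤ Real.exp 1 * G4 * Real.exp (-|ξ|) := by
  set η : ℝ := if 0 ≤ ξ then 1 else -1 with hη
  have hη1 : |η| ≤ 1 := by rw [hη]; split_ifs <;> simp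
  have hξη : ξ * η = |ξ| := by
    rw [hη]
    split_ifs with h
    · rw [abs_of_nonneg h, mul_one]
    · rw [abs_of_neg (not_le.1 h)]; ring
  have h1 := four_shift ξ η hη1
  have h2 : |KK ξ| = ‖((KK ξ : ℝ) : ℂ)‖ := by rw [Complex.norm_real, Real.norm_eq_abs]
  rw [h2, ← h1]
  have h3 : ∀ x : ℝ, ‖phi (x + η * I) * Complex.exp (ξ * (x + η * I) * I)‖ ≤
      Real.exp 1 * Real.exp (-|ξ|) * g4 x := by
    intro x
    refine (fx_bound ξ x η hη1).trans ?_
    rw [hξη]
    exact mul_le_mul_of_nonneg_left (mul_le_of_le_one_right (g4_pos x).le (g4_le_one x))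
      (by positivity)
  refine (norm_integral_le_of_norm_le (g4_int.const_mul _) (Eventually.of_forall h3)).trans ?_
  rw [integral_const_mul]
  unfold G4
  apply le_of_eq
  ring

/-! ## The kernel on the critical strip -/

/-- The kernel `e^{1 - cos((s - 1/2 - it)/H)}`. -/
noncomputable def GK (H t : ℝ) (s : ℂ) : ℂ :=
  Complex.exp (1 - Complex.cos ((s - 1 / 2 - t * I) / H))

lemma GK_diff (H t : ℝ) : Differentiable ℂ (GK H t) := by
  unfold GK
  apply Differentiable.cexp
  apply (differentiable_const _).sub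
  apply Differentiable.ccos
  fun_prop

lemma GK_eq (H t σ y : ℝ) (hH : H ≠ 0) : GK H t ((1 / 2 + σ : ℝ) + y * I) =
    phi ((((y - t) / H : ℝ) : ℂ) + ((-(σ / H) : ℝ) : ℂ) * I) := by
  unfold GK phi
  congr 2
  rw [← Complex.cosh_mul_I, ← Complex.cosh_neg]
  congr 1
  have hHc : (H : ℂ) ≠ 0 := by exact_mod_cast hH
  push_cast
  field_simp
  have hI : I ^ 2 = -1 := Complex.I_sq
  ring_nf
  rw [hI]
  ring

end Pool.Agent.Lib.MP_6bc78b_nt.GP.H17
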